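import Pool.Agent.Zk18.Th.Stm

set_option autoImplicit false

/-! # The lowest coefficients of a curve through a generic point of a plane curve (module LOW of helper18) -/

namespace Pool.Agent.Zk11.Th18

open Polynomial Pool.Agent.Zk18.Th

section

variable {F : Type} [Field F]

/-- evaluation of a polynomial in two variables -/
noncomputable def Ev {S : Type} [CommRing S] [Algebra F S] (w x : S) : F[X][X] →+* S :=
  eval₂RingHom ((aeval w : F[X] →ₐ[F] S) : F[X] →+* S) x

theorem Ev_C {S : Type} [CommRing S] [Algebra F S] (w x : S) (q : F[X]) :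
    Ev (F := F) w x (C q) = aeval w q := by
  unfold Ev
  simp

theorem Ev_X {S : Type} [CommRing S] [Algebra F S] (w x : S) : Ev (F := F) w x X = x := by
  unfold Ev
  simp

theorem Ev_map {S T : Type} [CommRing S] [Algebra F S] [CommRing T] [Algebra F T] (φ : S →ₐ[F] T)
    (w x : S) (Q : F[X][X]) : φ (Ev w x Q) = Ev (φ w) (φ x) Q := by
  have h : (φ : S →+* T).comp (Ev (F := F) w x) = Ev (F := F) (φ w) (φ x) := by
    apply Polynomial.ringHom_ext'
    · apply RingHom.ext
      intro q
      show φ (Ev w x (C q)) = Ev (φ w) (φ x) (C q)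
      rw [Ev_C, Ev_C, aeval_algHom_apply]
    · show φ (Ev w x X) = Ev (φ w) (φ x) X
      rw [Ev_X, Ev_X]
  exact RingHom.congr_fun h Q

variable {M : Type} [Field M] [Algebra F M]

theorem Ev_comp (w : M) (x : M[X]) (Q : F[X][X]) :
    Ev (C w) x Q = (Q.map ((aeval w : F[X] →ₐ[F] M) : F[X] →+* M)).comp x := by
  have h : Ev (C w) x = (Polynomial.compRingHom x).comp
      (Polynomial.mapRingHom ((aeval w : F[X] →ₐ[F] M) : F[X] →+* M)) := by
    apply Polynomial.ringHom_ext'
    · apply RingHom.ext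
      intro q
      show Ev (C w) x (C q) = ((C q).map ((aeval w : F[X] →ₐ[F] M) : F[X] →+* M)).comp x
      rw [Ev_C, map_C, C_comp]
      exact aeval_algHom_apply (CAlgHom : M →ₐ[F] M[X]) w q
    · show Ev (C w) x X = ((X : F[X][X]).map ((aeval w : F[X] →ₐ[F] M) : F[X] →+* M)).comp x
      rw [Ev_X, map_X, X_comp]
  exact RingHom.congr_fun h Q

theorem Ev_eval (w x : M) (Q : F[X][X]) :
    Ev w x Q = (Q.map ((aeval w : F[X] →ₐ[F] M) : F[X] →+* M)).eval x := by
  rw [eval_map]
  rfl

/-- Taylor expansion -/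
theorem coeff_comp (q x : M[X]) (j : ℕ) (hj : 0 < j) (hx : ∀ k, 0 < k → k < j → x.coeff k = 0) :
    (q.comp x).coeff j = q.derivative.eval (x.coeff 0) * x.coeff j := by
  obtain ⟨k, hk⟩ := Polynomial.binomExpansion (q.map C) (C (x.coeff 0)) (x - C (x.coeff 0))
  have h1 : (q.map C).eval (C (x.coeff 0) + (x - C (x.coeff 0))) = q.comp x := by
    rw [add_sub_cancel, eval_map]
    rfl
  have h2 : (q.map C).eval (C (x.coeff 0)) = C (q.eval (x.coeff 0)) := by
    rw [eval_map, eval₂_at_apply]
  have h3 : (q.map C).derivative.eval (C (x.coeff 0)) = C (q.derivative.eval (x.coeff 0)) := by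
    rw [derivative_map, eval_map, eval₂_at_apply]
  have h4 : X ^ j ∣ x - C (x.coeff 0) := by
    rw [X_pow_dvd_iff]
    intro d hd
    rw [coeff_sub, coeff_C]
    split_ifs with h
    · rw [h, sub_self]
    · rw [hx d (by omega) hd, sub_zero]
  have h5 : (k * (x - C (x.coeff 0)) ^ 2).coeff j = 0 := by
    have h6 : X ^ (j + 1) ∣ k * (x - C (x.coeff 0)) ^ 2 := by
      refine Dvd.dvd.mul_left ?_ k
      refine dvd_trans ?_ (pow_dvd_pow_of_dvd h4 2)
      rw [← pow_mul]
      exact pow_dvd_pow _ (by omega)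
    exact (X_pow_dvd_iff.1 h6) j (by omega)
  rw [← h1, hk, h2, h3, coeff_add, coeff_add, h5, add_zero, coeff_C_mul, coeff_sub, coeff_C,
    coeff_C, if_neg (by omega), if_neg (by omega), zero_add, sub_zero]

end

theorem core {F M : Type} [Field F] [CharZero F] [Field M] [Algebra F M] (y : Fin 2 → M)
    (P : MvPolynomial (Fin 2) F) (hP : P ≠ 0) (hP0 : MvPolynomial.aeval y P = 0) (c : Fin 2 → M[X])
    (hc : ∀ l, (c l).coeff 0 = y l)
    (hrel : ∀ Q : MvPolynomial (Fin 2) F, MvPolynomial.aeval y Q = 0 → MvPolynomial.aeval c Q = 0)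
    (j : ℕ) (hj : 0 < j) (hlow : ∀ l k, 0 < k → k < j → (c l).coeff k = 0) (i i' : Fin 2)
    (hi : i ≠ i') (a b : F) (hb : b ≠ 0) (hab : a • (c i).coeff j + b • (c i').coeff j = 0)
    (hγ : (c i).coeff j ≠ 0) (hw : Transcendental F (a • y i + b • y i')) : False := by
  obtain ⟨w, hwd⟩ : ∃ w, w = a • y i + b • y i' := ⟨_, rfl⟩
  rw [← hwd] at hw
  obtain ⟨cw, hcw⟩ : ∃ cw : M[X], cw = a • c i + b • c i' := ⟨_, rfl⟩
  obtain ⟨W, hW⟩ : ∃ W : MvPolynomial (Fin 2) F, W = a • MvPolynomial.X i + b • MvPolynomial.X i' :=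
    ⟨_, rfl⟩
  have hev1 : ∀ Q : F[X][X], MvPolynomial.aeval y (Ev W (MvPolynomial.X i) Q) = Ev w (y i) Q := by
    intro Q
    rw [Ev_map, hW, map_add, map_smul, map_smul, MvPolynomial.aeval_X, MvPolynomial.aeval_X, hwd]
  have hev2 : ∀ Q : F[X][X], MvPolynomial.aeval c (Ev W (MvPolynomial.X i) Q) = Ev cw (c i) Q := by
    intro Q
    rw [Ev_map, hW, map_add, map_smul, map_smul, MvPolynomial.aeval_X, MvPolynomial.aeval_X, hcw]
  -- a relation
  obtain ⟨Q, hQ, hQ0⟩ : ∃ Q : F[X][X], Q ≠ 0 ∧ Ev w (y i) Q = 0 := by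
    let Θ : MvPolynomial (Fin 2) F →ₐ[F] F[X][X] := MvPolynomial.aeval fun l =>
      if l = i then X else C (C b⁻¹) * (C X - C (C a) * X)
    have hΘ : Ev W (MvPolynomial.X i) (Θ P) = P := by
      have h : (Ev W (MvPolynomial.X i)).comp (Θ : MvPolynomial (Fin 2) F →+* F[X][X]) =
          RingHom.id _ := by
        apply MvPolynomial.ringHom_ext
        · intro r
          show Ev W (MvPolynomial.X i) (Θ (MvPolynomial.C r)) = MvPolynomial.C r
          have h1 : Θ (MvPolynomial.C r) = C (C r) := by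
            rw [MvPolynomial.aeval_C]
            rfl
          rw [h1, Ev_C, aeval_C]
          rfl
        · intro l
          show Ev W (MvPolynomial.X i) (Θ (MvPolynomial.X l)) = MvPolynomial.X l
          rw [MvPolynomial.aeval_X]
          by_cases hl : l = i
          · rw [if_pos hl, Ev_X, hl]
          · have hl' : l = i' := by omega
            rw [if_neg hl, map_mul, map_sub, map_mul, Ev_C, Ev_C, Ev_C, Ev_X, aeval_C, aeval_C,
              aeval_X, hW, hl', ← Algebra.smul_def, ← Algebra.smul_def, add_sub_cancel_left,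
              smul_smul, inv_mul_cancel₀ hb, one_smul]
      exact RingHom.congr_fun h P
    refine ⟨Θ P, fun h => hP ?_, ?_⟩
    · rw [← hΘ, h, map_zero]
    · rw [← hev1, hΘ, hP0]
  -- the derivative
  have key : ∀ Q : F[X][X], Ev w (y i) Q = 0 → Ev w (y i) (derivative Q) = 0 := by
    intro Q hQ
    have h1 : Ev cw (c i) Q = 0 := by
      rw [← hev2]
      apply hrel
      rw [hev1, hQ]
    have h2 : X ^ (j + 1) ∣ cw - C w := by
      rw [X_pow_dvd_iff]
      intro d hd
      rw [hcw, hwd, coeff_sub, coeff_add, coeff_smul, coeff_smul, coeff_C]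
      split_ifs with h
      · rw [h, hc, hc, sub_self]
      · rw [sub_zero]
        rcases Nat.lt_or_ge d j with h3 | h3
        · rw [hlow _ d (by omega) h3, hlow _ d (by omega) h3, smul_zero, smul_zero, add_zero]
        · have h4 : d = j := by omega
          rw [h4]
          exact hab
    have h3 : X ^ (j + 1) ∣ Ev cw (c i) Q - Ev (C w) (c i) Q := by
      rw [← Ideal.mem_span_singleton, ← Ideal.Quotient.eq]
      have h4 := Ev_map (Ideal.Quotient.mkₐ F (Ideal.span {(X : M[X]) ^ (j + 1)})) cw (c i) Q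
      have h5 := Ev_map (Ideal.Quotient.mkₐ F (Ideal.span {(X : M[X]) ^ (j + 1)})) (C w) (c i) Q
      have h6 : Ideal.Quotient.mkₐ F (Ideal.span {(X : M[X]) ^ (j + 1)}) cw =
          Ideal.Quotient.mkₐ F (Ideal.span {(X : M[X]) ^ (j + 1)}) (C w) := by
        rw [Ideal.Quotient.mkₐ_eq_mk, Ideal.Quotient.eq, Ideal.mem_span_singleton]
        exact h2
      rw [h6, ← h5] at h4
      exact h4
    have h4 := X_pow_dvd_iff.1 h3 j (by omega)
    rw [h1, zero_sub, coeff_neg, neg_eq_zero, Ev_comp, coeff_comp _ _ j hj (hlow i), hc,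
      derivative_map, ← Ev_eval] at h4
    exact (mul_eq_zero.1 h4).resolve_right hγ
  have hno : ∀ n : ℕ, ∀ Q : F[X][X], Q ≠ 0 → Q.natDegree = n → Ev w (y i) Q = 0 → False := by
    intro n
    induction n using Nat.strong_induction_on with
    | _ n ih =>
      intro Q hQ hn hQ0
      rcases Nat.eq_zero_or_pos n with h0 | hpos
      · rw [h0] at hn
        rw [eq_C_of_natDegree_eq_zero hn, Ev_C] at hQ0
        have h1 : Q.coeff 0 ≠ 0 := by
          intro h
          apply hQ
          rw [eq_C_of_natDegree_eq_zero hn, h, C_0]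
        exact hw ⟨Q.coeff 0, h1, hQ0⟩
      · have h1 : derivative Q ≠ 0 := by
          intro h
          have := derivative_eq_zero.1 h
          omega
        exact ih (derivative Q).natDegree
          (by rw [← hn]; exact natDegree_derivative_lt (by omega)) _ h1 rfl (key Q hQ0)
  exact hno _ Q hQ rfl hQ0

theorem t_LOW : S_LOW := by
  intro F M _ _ _ _ _ y hy hP c hc hrel j hj hlow hne
  obtain ⟨P, hP, hP0⟩ := hP
  rw [LinearIndependent.pair_iff]
  intro α β hαβ
  by_contra hcon
  have htr : Transcendental F (α • y 0 + β • y 1) := by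
    intro halg
    have hint : IsIntegral F (α • y 0 + β • y 1) := halg.isIntegral
    have h1 := IsAlgClosed.degree_eq_one_of_irreducible F (minpoly.irreducible hint)
    obtain ⟨t, ht⟩ := minpoly.mem_range_of_degree_eq_one F _ h1
    have h2 := Fintype.linearIndependent_iff.1 hy ![-t, α, β] (by
      rw [Fin.sum_univ_three]
      show (-t) • (1 : M) + α • y 0 + β • y 1 = 0
      rw [add_assoc, ← ht, neg_smul, Algebra.algebraMap_eq_smul_one]
      exact neg_add_cancel _)
    exact hcon ⟨h2 1, h2 2⟩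
  obtain ⟨i, hi⟩ := hne
  have h01 : i = 0 ∨ i = 1 := by omega
  rcases h01 with rfl | rfl
  · have hb : β ≠ 0 := by
      intro h
      rw [h, zero_smul, add_zero] at hαβ
      exact hcon ⟨(smul_eq_zero.1 hαβ).resolve_right hi, h⟩
    exact core y P hP hP0 c hc hrel j hj hlow 0 1 (by decide) α β hb hαβ hi htr
  · have hb : α ≠ 0 := by
      intro h
      rw [h, zero_smul, zero_add] at hαβ
      exact hcon ⟨h, (smul_eq_zero.1 hαβ).resolve_right hi⟩
    rw [add_comm] at hαβ htr
    exact core y P hP hP0 c hc hrel j hj hlow 1 0 (by decide) β α hb hαβ hi htr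

end Pool.Agent.Zk11.Th18
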